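import Pool.Agent.Helper57.KE.St

/-!
# Project KE, module BIG: the two-sided kernel by averaging over cuts

Adapted from `Pool/Agent/Helper57/KR/K6.lean`.
-/

set_option autoImplicit false

open scoped BigOperators
open Finset

namespace Pool.Agent.Helper51.KE

open Pool.Agent.Helper57.KE Pool.Agent.Helper57.KR Pool.Agent.Helper65.RG

private lemma kb_sum {ι : Type*} [Fintype ι] (K : ℕ → ι → ι → ℝ) (c : ℝ) (P : Finset ℕ)
    (h : ∀ m ∈ P, KB (K m) c) :
    KB (fun i j => ∑ m ∈ P, K m i j) ((P.card : ℝ) * c) := by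
  induction P using Finset.induction_on with
  | empty =>
    intro x y hx hy
    simp
  | insert a s ha ih =>
    have h1 := (h a (mem_insert_self a s)).add (ih (fun m hm => h m (mem_insert_of_mem hm)))
    refine h1.mono (fun i j => le_of_eq (sum_insert ha)) ?_
    rw [card_insert_of_notMem ha]
    push_cast
    linarith

private lemma lin_geom {δ : ℝ} (hδ : 0 < δ) (K : ℕ) :
    ∑ d ∈ range K, (d : ℝ) * ((1 + δ)⁻¹) ^ (d + 1) ≤ (δ ^ 2)⁻¹ := by
  rcases K with _ | K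
  · rw [range_zero, sum_empty]
    positivity
  · set q : ℝ := (1 + δ)⁻¹ with hq
    have hq0 : 0 < q := by positivity
    have hq1 : q ≤ 1 := inv_le_one_of_one_le₀ (by linarith)
    have e : 1 - q = δ * q := by
      rw [hq]
      field_simp
      ring
    have h3 := arith_geom hq0.le hq1 K
    set X := ∑ k ∈ range K, q ^ (k + 1) * ((k : ℝ) + 1) with hX
    rw [sum_range_succ']
    have e1 : ∑ k ∈ range K, ((k + 1 : ℕ) : ℝ) * q ^ (k + 1 + 1) = q * X := by
      rw [hX, mul_sum]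
      refine sum_congr rfl fun k _ => ?_
      push_cast
      ring
    rw [e1, Nat.cast_zero, zero_mul, add_zero]
    rw [e] at h3
    have h4 : δ ^ 2 * (q * X) ≤ 1 := by
      have : q * (δ ^ 2 * (q * X)) ≤ q * 1 := by
        calc q * (δ ^ 2 * (q * X)) = (δ * q) ^ 2 * X := by ring
          _ ≤ q := h3
          _ = q * 1 := by ring
      exact le_of_mul_le_mul_left this hq0
    rw [← one_div, le_div_iff₀ (by positivity)]
    linarith

private lemma kb_lin {δ : ℝ} (hδ : 0 < δ) (N : ℕ) :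
    KB (fun i j : Fin (N + 1) => k1 δ i j * (((i : ℕ) - (j : ℕ) : ℕ) : ℝ)) ((δ ^ 2)⁻¹) := by
  have hd : 0 ≤ (δ ^ 2)⁻¹ := by positivity
  have hkey : ∀ i j : ℕ, k1 δ i j * ((i - j : ℕ) : ℝ) =
      if j ≤ i then (fun k : ℕ => (k : ℝ) * ((1 + δ)⁻¹) ^ (k + 1)) (i - j) else 0 := by
    intro i j
    unfold k1
    split_ifs
    · ring
    · ring
  have := KB.schur (ι := Fin (N + 1))
    (K := fun i j => k1 δ i j * (((i : ℕ) - (j : ℕ) : ℕ) : ℝ)) (h := fun _ => 1)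
    (A := (δ ^ 2)⁻¹) (B := (δ ^ 2)⁻¹) (fun _ => one_pos)
    (fun i j => by have := k1_nonneg hδ (i : ℕ) j; positivity) hd hd ?_ ?_
  · rwa [Real.mul_self_sqrt hd] at this
  · intro i
    simp only [mul_one, hkey]
    rw [Fin.sum_univ_eq_sum_range (fun j => if j ≤ (i : ℕ) then
      (((i : ℕ) - j : ℕ) : ℝ) * ((1 + δ)⁻¹) ^ ((i : ℕ) - j + 1) else 0) (N + 1)]
    exact sum_row (g := fun k => (k : ℝ) * ((1 + δ)⁻¹) ^ (k + 1)) (lin_geom hδ)
      (by have := i.isLt; omega)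
  · intro j
    simp only [mul_one, hkey]
    rw [Fin.sum_univ_eq_sum_range (fun i => if (j : ℕ) ≤ i then
      ((i - (j : ℕ) : ℕ) : ℝ) * ((1 + δ)⁻¹) ^ (i - (j : ℕ) + 1) else 0) (N + 1)]
    exact sum_col (g := fun k => (k : ℝ) * ((1 + δ)⁻¹) ^ (k + 1)) (lin_geom hδ)
      (by have := j.isLt; omega)

private lemma quad_le {δ : ℝ} (hδ : 0 < δ) (hδ1 : δ ≤ 1) (n : ℕ) :
    (n : ℝ) ^ 2 * δ ^ 2 ≤ 2 * (1 + δ) ^ n := by
  have h : ∀ n : ℕ, 1 + (n : ℝ) * δ + (n : ℝ) * ((n : ℝ) - 1) / 2 * δ ^ 2 ≤ (1 + δ) ^ n := by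
    intro n
    induction n with
    | zero => simp
    | succ n ih =>
      have h1 : (1 + (n : ℝ) * δ + (n : ℝ) * ((n : ℝ) - 1) / 2 * δ ^ 2) * (1 + δ) ≤
          (1 + δ) ^ n * (1 + δ) := mul_le_mul_of_nonneg_right ih (by linarith)
      rw [pow_succ]
      refine le_trans ?_ h1
      have h2 : 0 ≤ (n : ℝ) * ((n : ℝ) - 1) / 2 * δ ^ 3 := by
        rcases n with _ | n
        · simp
        · push_cast
          have : 0 ≤ ((n : ℝ) + 1) * ((n : ℝ) + 1 - 1) := by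
            have : (0 : ℝ) ≤ n := Nat.cast_nonneg n
            nlinarith
          positivity
      push_cast
      nlinarith
  have h1 := h n
  have h2 : (0 : ℝ) ≤ n := Nat.cast_nonneg n
  have h3 : (n : ℝ) * δ ^ 2 ≤ (n : ℝ) * δ := by
    apply mul_le_mul_of_nonneg_left _ h2
    nlinarith
  nlinarith

/-- BIG. -/
theorem hBIG : StBIG := by
  intro φ Φ B C δ M N hφ hΦ hc hM hN hδ hδ1 hC hB hA hB2
  have hΦ0 : 0 < Φ := lt_of_lt_of_le (hφ 0) (hΦ 0)
  have hN0 : (0 : ℝ) < (N : ℝ) + 1 := by positivity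
  have hR : KB (fun i j : Fin (N + 1) => k1 δ i j * (φ (N - j) / φ (N - i))) (C * δ⁻¹) := by
    have h2 := (hA.transpose).reindex (Fin.revPerm)
    simp only [Fin.revPerm_apply] at h2
    refine h2.mono ?_ le_rfl
    intro i j
    have hi := i.isLt
    have hj := j.isLt
    simp only [Fin.val_rev]
    have e1 : N + 1 - ((i : ℕ) + 1) = N - i := by omega
    have e2 : N + 1 - ((j : ℕ) + 1) = N - j := by omega
    rw [e1, e2]
    unfold k1
    by_cases h : (j : ℕ) ≤ i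
    · rw [if_pos h, if_pos (by omega)]
      have e3 : N - (j : ℕ) - (N - i) = i - j := by omega
      rw [e3]
    · rw [if_neg h, if_neg (by omega), zero_mul]
  -- the cuts
  set P : Finset ℕ := Ioc (N / 4) (3 * N / 4) with hP
  have hPc : P.card = 3 * N / 4 - N / 4 := Nat.card_Ioc _ _
  have hPc4 : N + 1 ≤ 4 * P.card := by
    rw [hPc]
    omega
  have hP0 : (0 : ℝ) < P.card := by
    have : 0 < P.card := by omega
    exact_mod_cast this
  have hPr : (N : ℝ) + 1 ≤ 4 * (P.card : ℝ) := by exact_mod_cast hPc4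
  have hAv : KB (fun i j : Fin (N + 1) => (P.card : ℝ)⁻¹ * ∑ m ∈ P,
      (if (i : ℕ) < m ∧ (j : ℕ) < m then k1 δ i j * (φ i / φ j)
        else if ¬ (i : ℕ) < m ∧ ¬ (j : ℕ) < m then k1 δ i j * (φ (N - j) / φ (N - i)) else 0))
      (C * δ⁻¹) := by
    have h1 := (kb_sum (fun (m : ℕ) (i j : Fin (N + 1)) =>
      (if (i : ℕ) < m ∧ (j : ℕ) < m then k1 δ i j * (φ i / φ j)
        else if ¬ (i : ℕ) < m ∧ ¬ (j : ℕ) < m then k1 δ i j * (φ (N - j) / φ (N - i)) else 0))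
      (C * δ⁻¹) P (fun m _ => kb_block hA hR (by positivity) (fun i : Fin (N + 1) => (i : ℕ) < m))).smul
      (c := (P.card : ℝ)⁻¹) (by positivity)
    refine h1.mono (fun i j => le_rfl) (le_of_eq ?_)
    field_simp
  set D : ℝ := 128 / ((δ * ((N : ℝ) + 1)) ^ 2) * Φ ^ 2 with hD
  have hDp : 0 ≤ D := by positivity
  have hCC : KB (fun i j : Fin (N + 1) => D * ((φ (N - i))⁻¹ * (φ j)⁻¹))
      (128 * B / (δ * ((N : ℝ) + 1)) * δ⁻¹) := by
    have h1 := (KB.rankOne (K := fun i j : Fin (N + 1) => (φ (N - i))⁻¹ * (φ j)⁻¹)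
      (u := fun i : Fin (N + 1) => (φ (N - i))⁻¹) (v := fun j : Fin (N + 1) => (φ j)⁻¹)
      (fun i j => le_rfl)).smul hDp
    refine h1.mono (fun i j => le_rfl) ?_
    have e1 : ∑ i : Fin (N + 1), ((φ (N - i))⁻¹) ^ 2 = ∑ j ∈ range (N + 1), (φ j ^ 2)⁻¹ := by
      rw [← Equiv.sum_comp Fin.revPerm,
        ← Fin.sum_univ_eq_sum_range (fun j => (φ j ^ 2)⁻¹) (N + 1)]
      refine sum_congr rfl fun i _ => ?_
      rw [Fin.revPerm_apply, Fin.val_rev]
      have : N - (N + 1 - ((i : ℕ) + 1)) = i := by have := i.isLt; omega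
      rw [this, inv_pow]
    have e2 : ∑ i : Fin (N + 1), ((φ i)⁻¹) ^ 2 = ∑ j ∈ range (N + 1), (φ j ^ 2)⁻¹ := by
      rw [← Fin.sum_univ_eq_sum_range (fun j => (φ j ^ 2)⁻¹) (N + 1)]
      refine sum_congr rfl fun i _ => ?_
      rw [inv_pow]
    rw [e1, e2, Real.mul_self_sqrt (sum_nonneg fun i _ => by positivity)]
    calc D * ∑ j ∈ range (N + 1), (φ j ^ 2)⁻¹
        = 128 / ((δ * ((N : ℝ) + 1)) ^ 2) * (Φ ^ 2 * ∑ j ∈ range (N + 1), (φ j ^ 2)⁻¹) := by
          rw [hD]; ring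
      _ ≤ 128 / ((δ * ((N : ℝ) + 1)) ^ 2) * (B * ((N : ℝ) + 1)) := by gcongr
      _ = 128 * B / (δ * ((N : ℝ) + 1)) * δ⁻¹ := by field_simp
  have hL := (kb_lin hδ N).smul (c := 4 / ((N : ℝ) + 1)) (by positivity)
  have hS := (hAv.add hL).add hCC
  refine hS.mono ?_ (le_of_eq ?_)
  swap
  · field_simp
    ring
  intro i j
  have p1 := hφ i
  have p2 := hφ j
  have p3 := hφ (N - i)
  have p4 := hφ (N - j)
  have hk := k1_nonneg hδ (i : ℕ) j
  have hi := i.isLt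
  have hj := j.isLt
  set T : ℝ := k1 δ i j * ((φ i / φ (N - i)) / (φ j / φ (N - j))) with hT
  have hT0 : 0 ≤ T := by positivity
  have eT : T = k1 δ i j * ((φ i / φ j) * (φ (N - j) / φ (N - i))) := by
    rw [hT]
    congr 1
    field_simp
  have t2 : 0 ≤ 4 / ((N : ℝ) + 1) * (k1 δ i j * (((i : ℕ) - (j : ℕ) : ℕ) : ℝ)) := by positivity
  have t3 : 0 ≤ D * ((φ (N - i))⁻¹ * (φ j)⁻¹) := by positivity
  by_cases hij : (j : ℕ) ≤ i
  swap
  · have hk0 : k1 δ i j = 0 := by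
      unfold k1
      rw [if_neg hij]
    have hT1 : T = 0 := by rw [hT, hk0, zero_mul]
    have hs0 : ∑ m ∈ P, (if (i : ℕ) < m ∧ (j : ℕ) < m then k1 δ i j * (φ i / φ j)
        else if ¬ (i : ℕ) < m ∧ ¬ (j : ℕ) < m then k1 δ i j * (φ (N - j) / φ (N - i)) else 0) = 0 := by
      refine sum_eq_zero fun m _ => ?_
      rw [hk0]
      split_ifs <;> simp
    rw [hT1, hs0, mul_zero, zero_add]
    linarith
  -- the terms of the average
  have hterm : ∀ m ∈ P, (if (i : ℕ) < m ∧ (j : ℕ) < m then k1 δ i j * (φ i / φ j)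
      else if ¬ (i : ℕ) < m ∧ ¬ (j : ℕ) < m then k1 δ i j * (φ (N - j) / φ (N - i)) else 0) =
      T - (if m ∈ Ioc (j : ℕ) (i : ℕ) then T else 0) := by
    intro m hm
    rw [hP, mem_Ioc] at hm
    rw [eT]
    by_cases h1 : (i : ℕ) < m
    · have h2 : (j : ℕ) < m := by omega
      rw [if_pos ⟨h1, h2⟩, if_neg (by rw [mem_Ioc]; omega), sub_zero,
        hc (N - i) (by omega), hc (N - j) (by omega), div_self hΦ0.ne', mul_one]
    · by_cases h2 : (j : ℕ) < m
      · rw [if_neg (by omega), if_neg (by omega), if_pos (by rw [mem_Ioc]; omega), sub_self]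
      · rw [if_neg (by omega), if_pos (by omega), if_neg (by rw [mem_Ioc]; omega), sub_zero,
          hc i (by omega), hc j (by omega), div_self hΦ0.ne', one_mul]
  have hsum : ∑ m ∈ P, (if (i : ℕ) < m ∧ (j : ℕ) < m then k1 δ i j * (φ i / φ j)
      else if ¬ (i : ℕ) < m ∧ ¬ (j : ℕ) < m then k1 δ i j * (φ (N - j) / φ (N - i)) else 0) =
      (P.card : ℝ) * T - ((P.filter (fun m => m ∈ Ioc (j : ℕ) (i : ℕ))).card : ℝ) * T := by
    rw [sum_congr rfl hterm, sum_sub_distrib, sum_const, nsmul_eq_mul, ← sum_filter, sum_const,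
      nsmul_eq_mul]
  rw [hsum]
  set S := P.filter (fun m => m ∈ Ioc (j : ℕ) (i : ℕ)) with hSd
  have e5 : (P.card : ℝ)⁻¹ * ((P.card : ℝ) * T - (S.card : ℝ) * T) =
      T - (S.card : ℝ) / (P.card : ℝ) * T := by
    field_simp
  rw [e5]
  have hSP : (S.card : ℝ) ≤ P.card := by
    exact_mod_cast card_le_card (filter_subset _ _)
  have hSi : (S.card : ℝ) ≤ (((i : ℕ) - (j : ℕ) : ℕ) : ℝ) := by
    have : S.card ≤ (Ioc (j : ℕ) (i : ℕ)).card := by
      apply card_le_card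
      intro m hm
      rw [hSd, mem_filter] at hm
      exact hm.2
    rw [Nat.card_Ioc] at this
    exact_mod_cast this
  suffices h : (S.card : ℝ) / (P.card : ℝ) * T ≤
      4 / ((N : ℝ) + 1) * (k1 δ i j * (((i : ℕ) - (j : ℕ) : ℕ) : ℝ)) +
        D * ((φ (N - i))⁻¹ * (φ j)⁻¹) by linarith
  by_cases hmid : M ≤ (j : ℕ) ∧ (i : ℕ) + M ≤ N
  · have eT1 : T = k1 δ i j := by
      rw [eT, hc i (by omega), hc j hmid.1, hc (N - i) (by omega), hc (N - j) (by omega),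
        div_self hΦ0.ne', mul_one, mul_one]
    rw [eT1]
    have h5 : (S.card : ℝ) / (P.card : ℝ) ≤ 4 / ((N : ℝ) + 1) * (((i : ℕ) - (j : ℕ) : ℕ) : ℝ) := by
      rw [div_mul_eq_mul_div, div_le_div_iff₀ hP0 hN0]
      calc (S.card : ℝ) * ((N : ℝ) + 1) ≤ (((i : ℕ) - (j : ℕ) : ℕ) : ℝ) * (4 * (P.card : ℝ)) := by
            gcongr
        _ = _ := by ring
    have h6 := mul_le_mul_of_nonneg_right h5 hk
    calc (S.card : ℝ) / (P.card : ℝ) * k1 δ i j ≤
          4 / ((N : ℝ) + 1) * (((i : ℕ) - (j : ℕ) : ℕ) : ℝ) * k1 δ i j := h6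
      _ = 4 / ((N : ℝ) + 1) * (k1 δ i j * (((i : ℕ) - (j : ℕ) : ℕ) : ℝ)) := by ring
      _ ≤ _ := by linarith
  · rcases S.eq_empty_or_nonempty with hSe | ⟨m, hm⟩
    · rw [hSe, card_empty, Nat.cast_zero, zero_div, zero_mul]
      linarith
    · rw [hSd, mem_filter, hP, mem_Ioc, mem_Ioc] at hm
      have hlen : N + 1 ≤ 8 * ((i : ℕ) - j + 1) := by omega
      have hk1 : k1 δ i j ≤ 128 / ((δ * ((N : ℝ) + 1)) ^ 2) := by
        unfold k1
        rw [if_pos hij]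
        set n : ℕ := (i : ℕ) - j + 1 with hn
        have h7 := quad_le hδ hδ1 n
        have h8 : (N : ℝ) + 1 ≤ 8 * (n : ℝ) := by exact_mod_cast hlen
        have hp : 0 < (1 + δ) ^ n := by positivity
        rw [inv_pow, inv_eq_one_div, div_le_div_iff₀ hp (by positivity), one_mul]
        have h9 : ((N : ℝ) + 1) ^ 2 ≤ 64 * (n : ℝ) ^ 2 := by
          calc ((N : ℝ) + 1) ^ 2 ≤ (8 * (n : ℝ)) ^ 2 := by gcongr
            _ = _ := by ring
        calc (δ * ((N : ℝ) + 1)) ^ 2 = δ ^ 2 * ((N : ℝ) + 1) ^ 2 := by ring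
          _ ≤ δ ^ 2 * (64 * (n : ℝ) ^ 2) := by gcongr
          _ = 64 * ((n : ℝ) ^ 2 * δ ^ 2) := by ring
          _ ≤ 64 * (2 * (1 + δ) ^ n) := by gcongr
          _ = 128 * (1 + δ) ^ n := by ring
      have hr : (φ i / φ j) * (φ (N - j) / φ (N - i)) ≤ (Φ / φ j) * (Φ / φ (N - i)) := by
        have := hΦ i
        have := hΦ (N - j)
        gcongr
      have h10 : (S.card : ℝ) / (P.card : ℝ) ≤ 1 := by
        rw [div_le_one hP0]
        exact hSP
      calc (S.card : ℝ) / (P.card : ℝ) * T ≤ 1 * T := by gcongr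
        _ = k1 δ i j * ((φ i / φ j) * (φ (N - j) / φ (N - i))) := by rw [one_mul, eT]
        _ ≤ 128 / ((δ * ((N : ℝ) + 1)) ^ 2) * ((Φ / φ j) * (Φ / φ (N - i))) := by
            apply mul_le_mul hk1 hr (by positivity) (by positivity)
        _ = D * ((φ (N - i))⁻¹ * (φ j)⁻¹) := by
            rw [hD, div_eq_mul_inv Φ, div_eq_mul_inv Φ]
            ring
        _ ≤ _ := by linarith

end Pool.Agent.Helper51.KE
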