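import Pool.Agent.Helper57.KE.St2

/-!
# Project KF, module POC: the critical inequality
-/

set_option autoImplicit false

open scoped BigOperators
open Finset

namespace Pool.Agent.Helper51.KE

open Pool.Agent.Helper57.KE Pool.Agent.Helper57.KR Pool.Agent.Helper65.RG

private lemma core3 {s p α β γ S w w' δ t : ℝ} (hs0 : 0 < s) (hs1 : s < 1) (hp0 : 0 < p)
    (hp1 : p < 1) (hps : p * (1 + s) = 1 - s) (hα : 0 ≤ α) (hβ : 0 ≤ β) (hγ : 0 ≤ γ)
    (hS : S = α + β + γ) (hw : 0 < w) (hδ : 0 < δ) (ht : t = w + δ)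
    (hT : t * (3 * S + S ^ 2 + 4) ≤ 1) (hw' : w' * (1 + w) = w)
    (G1 : 160 ≤ α * (1 - p)) (G2 : 0 ≤ 2 * s * α - p * β) (G3 : 0 ≤ 2 * s * β - (1 + p) * γ)
    (G4 : 160 ≤ 2 * s * γ) :
    δ ^ 2 * (1 - s ^ 2) ≤ (1 + δ) ^ 2 -
      (1 + δ) / (1 + (p * w - s * δ + (α * w ^ 2 + β * δ * w + γ * δ ^ 2))) -
      (1 + (1 - p) * w) *
        ((1 + δ) * (1 + (p * w' - s * δ + (α * w' ^ 2 + β * δ * w' + γ * δ ^ 2))) - 1) := by
  have hS0 : 0 ≤ S := by rw [hS]; positivity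
  have ht0 : 0 < t := by rw [ht]; positivity
  have hwt : w ≤ t := by rw [ht]; linarith
  have hδt : δ ≤ t := by rw [ht]; linarith
  have hSt0 : 0 ≤ S * t := by positivity
  have hSt2 : 0 ≤ S ^ 2 * t := by positivity
  have hSt : S * t ≤ 1 := by nlinarith
  have ht4 : t ≤ 1 / 4 := by nlinarith
  have h3 : (3 * S + S ^ 2) * t ≤ 1 := by nlinarith
  set e : ℝ := α * w ^ 2 + β * δ * w + γ * δ ^ 2 with he
  have he0 : 0 ≤ e := by positivity
  have hwd : δ * w ≤ t ^ 2 := by nlinarith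
  have hww : w ^ 2 ≤ t ^ 2 := by nlinarith
  have hdd : δ ^ 2 ≤ t ^ 2 := by nlinarith
  have heS : e ≤ S * t ^ 2 := by
    have a1 := mul_le_mul_of_nonneg_left hww hα
    have a2 := mul_le_mul_of_nonneg_left hwd hβ
    have a3 := mul_le_mul_of_nonneg_left hdd hγ
    calc e = α * w ^ 2 + β * (δ * w) + γ * δ ^ 2 := by rw [he]; ring
      _ ≤ α * t ^ 2 + β * t ^ 2 + γ * t ^ 2 := by linarith
      _ = S * t ^ 2 := by rw [hS]; ring
  have het : e ≤ t := by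
    calc e ≤ S * t ^ 2 := heS
      _ = (S * t) * t := by ring
      _ ≤ 1 * t := mul_le_mul_of_nonneg_right hSt ht0.le
      _ = t := one_mul t
  set L : ℝ := p * w - s * δ with hL
  have hpw : p * w ≤ w := by nlinarith
  have hpw0 : 0 < p * w := by positivity
  have hsd : s * δ ≤ δ := by nlinarith
  have hsd0 : 0 < s * δ := by positivity
  have hL1 : L ≤ t := by rw [hL]; linarith
  have hL2 : -t ≤ L := by rw [hL]; linarith
  set ρ : ℝ := L + e with hρ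
  have hρ1 : ρ ≤ 2 * t := by rw [hρ]; linarith
  have hρ2 : -t ≤ ρ := by rw [hρ]; linarith
  have hρ3 : 1 / 2 ≤ 1 + ρ := by linarith
  have hρpos : 0 < 1 + ρ := by linarith
  have ht3 : 0 < t ^ 3 := by positivity
  have hinv : 1 / (1 + ρ) ≤ 1 - ρ + ρ ^ 2 + 16 * t ^ 3 := by
    rw [div_le_iff₀ hρpos]
    have h1 : -t ^ 3 ≤ ρ ^ 3 := by
      have h2 : ρ ^ 3 - (-t) ^ 3 = (ρ - (-t)) * (ρ ^ 2 + ρ * (-t) + (-t) ^ 2) := by ring
      have h3 : 0 ≤ ρ ^ 2 + ρ * (-t) + (-t) ^ 2 := by nlinarith [sq_nonneg (ρ - t), sq_nonneg ρ, sq_nonneg t]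
      have h4 : 0 ≤ (ρ - (-t)) * (ρ ^ 2 + ρ * (-t) + (-t) ^ 2) := mul_nonneg (by linarith) h3
      have h5 : (-t) ^ 3 = -t ^ 3 := by ring
      linarith
    have h2 : 16 * t ^ 3 * (1 / 2) ≤ 16 * t ^ 3 * (1 + ρ) :=
      mul_le_mul_of_nonneg_left hρ3 (by positivity)
    have h6 : (1 - ρ + ρ ^ 2 + 16 * t ^ 3) * (1 + ρ) = 1 + ρ ^ 3 + 16 * t ^ 3 * (1 + ρ) := by ring
    rw [h6]
    linarith
  have hdiv : (1 + δ) / (1 + ρ) ≤ (1 + δ) * (1 - ρ + ρ ^ 2 + 16 * t ^ 3) := by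
    rw [div_eq_mul_one_div]
    exact mul_le_mul_of_nonneg_left hinv (by linarith)
  -- the shifted point
  have hw1 : 0 < 1 + w := by linarith
  have hw'e : w' = w / (1 + w) := by rw [eq_div_iff hw1.ne']; exact hw'
  have hw'0 : 0 < w' := by rw [hw'e]; positivity
  have k1 : w ^ 2 - w ^ 3 ≤ w - w' := by
    have : w' ≤ w - w ^ 2 + w ^ 3 := by
      rw [hw'e, div_le_iff₀ hw1]
      have : 0 ≤ w ^ 4 := by positivity
      nlinarith
    linarith
  have k2 : 2 * w ^ 3 - 3 * w ^ 4 ≤ w ^ 2 - w' ^ 2 := by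
    have : w' ^ 2 ≤ w ^ 2 - 2 * w ^ 3 + 3 * w ^ 4 := by
      rw [hw'e, div_pow, div_le_iff₀ (by positivity)]
      have h1 : (w ^ 2 - 2 * w ^ 3 + 3 * w ^ 4) * (1 + w) ^ 2 =
          w ^ 2 + (4 * w ^ 5 + 3 * w ^ 6) := by ring
      rw [h1]
      have : 0 ≤ 4 * w ^ 5 + 3 * w ^ 6 := by positivity
      linarith
    linarith
  have hw4 : w ≤ 1 / 4 := by linarith
  have m1 : 0 ≤ w ^ 2 - w ^ 3 := by
    have : w ^ 2 - w ^ 3 = w ^ 2 * (1 - w) := by ring
    rw [this]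
    exact mul_nonneg (by positivity) (by linarith)
  have m2 : 0 ≤ 2 * w ^ 3 - 3 * w ^ 4 := by
    have : 2 * w ^ 3 - 3 * w ^ 4 = w ^ 3 * (2 - 3 * w) := by ring
    rw [this]
    exact mul_nonneg (by positivity) (by linarith)
  set D : ℝ := p * (w ^ 2 - w ^ 3) + α * (2 * w ^ 3 - 3 * w ^ 4) + β * δ * (w ^ 2 - w ^ 3) with hD
  have hD0 : 0 ≤ D := by positivity
  set ρ' : ℝ := p * w' - s * δ + (α * w' ^ 2 + β * δ * w' + γ * δ ^ 2) with hρ'
  have hρρ : D ≤ ρ - ρ' := by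
    have a1 := mul_le_mul_of_nonneg_left k1 hp0.le
    have a2 := mul_le_mul_of_nonneg_left k2 hα
    have a3 := mul_le_mul_of_nonneg_left k1 (show 0 ≤ β * δ by positivity)
    have : ρ - ρ' = p * (w - w') + α * (w ^ 2 - w' ^ 2) + β * δ * (w - w') := by
      rw [hρ, hρ', hL, he]
      ring
    rw [this, hD]
    linarith
  have hρ'ρ : ρ' ≤ ρ := by linarith
  -- the pieces
  have q1 : D ≤ (1 + δ) * (ρ - ρ') := by
    have : (1 : ℝ) * D ≤ (1 + δ) * (ρ - ρ') :=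
      mul_le_mul (by linarith) hρρ hD0 (by linarith)
    linarith
  have hp10 : 0 < 1 - p := by linarith
  have q2 : (1 - p) * w * (1 + δ) * ρ' ≤ (1 - p) * w * (1 + δ) * ρ :=
    mul_le_mul_of_nonneg_left hρ'ρ (by positivity)
  have hρsq : ρ ^ 2 ≤ 4 * t ^ 2 := by
    have : ρ ^ 2 ≤ (2 * t) ^ 2 := by
      apply sq_le_sq'
      · linarith
      · exact hρ1
    linarith
  have q3 : δ * ρ ^ 2 ≤ 4 * t ^ 3 := by
    calc δ * ρ ^ 2 ≤ t * (4 * t ^ 2) := mul_le_mul hδt hρsq (by positivity) ht0.le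
      _ = _ := by ring
  have q4 : (1 - p) * w * δ * ρ ≤ 2 * t ^ 3 := by
    have a1 : (1 - p) * w * δ ≤ t ^ 2 := by
      have : (1 - p) * (δ * w) ≤ 1 * (δ * w) :=
        mul_le_mul_of_nonneg_right (by linarith) (by positivity)
      calc (1 - p) * w * δ = (1 - p) * (δ * w) := by ring
        _ ≤ 1 * (δ * w) := this
        _ ≤ t ^ 2 := by linarith
    have a0 : 0 ≤ (1 - p) * w * δ := by positivity
    calc (1 - p) * w * δ * ρ ≤ (1 - p) * w * δ * (2 * t) := mul_le_mul_of_nonneg_left hρ1 a0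
      _ ≤ t ^ 2 * (2 * t) := mul_le_mul_of_nonneg_right a1 (by positivity)
      _ = _ := by ring
  have q5 : (1 + δ) * (16 * t ^ 3) ≤ 32 * t ^ 3 := by
    have : (1 + δ) * (16 * t ^ 3) ≤ 2 * (16 * t ^ 3) :=
      mul_le_mul_of_nonneg_right (by linarith) (by positivity)
    linarith
  have q6 : e ^ 2 ≤ S ^ 2 * t ^ 4 := by
    calc e ^ 2 ≤ (S * t ^ 2) ^ 2 := by gcongr
      _ = _ := by ring
  have q7 : 3 * α * w ^ 4 + β * δ * w ^ 3 ≤ 3 * S * t ^ 4 := by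
    have b1 : w ^ 4 ≤ t ^ 4 := by gcongr
    have b2 : δ * w ^ 3 ≤ t ^ 4 := by
      calc δ * w ^ 3 ≤ t * t ^ 3 := by gcongr
        _ = t ^ 4 := by ring
    have b3 : 3 * α * w ^ 4 ≤ 3 * α * t ^ 4 := by gcongr
    have b4 : β * δ * w ^ 3 ≤ β * t ^ 4 := by
      calc β * δ * w ^ 3 = β * (δ * w ^ 3) := by ring
        _ ≤ β * t ^ 4 := by gcongr
    have b5 : 0 ≤ t ^ 4 := by positivity
    have b6 : 3 * S * t ^ 4 = 3 * α * t ^ 4 + 3 * β * t ^ 4 + 3 * γ * t ^ 4 := by rw [hS]; ring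
    have b7 : 0 ≤ β * t ^ 4 := by positivity
    have b8 : 0 ≤ γ * t ^ 4 := by positivity
    linarith
  have q8 : (3 * S + S ^ 2) * t ^ 4 ≤ t ^ 3 := by
    calc (3 * S + S ^ 2) * t ^ 4 = ((3 * S + S ^ 2) * t) * t ^ 3 := by ring
      _ ≤ 1 * t ^ 3 := mul_le_mul_of_nonneg_right h3 ht3.le
      _ = _ := one_mul _
  have q9 : p * w ^ 3 ≤ t ^ 3 := by
    calc p * w ^ 3 ≤ 1 * t ^ 3 := by gcongr
      _ = _ := one_mul _
  have hG : 160 * w ^ 3 + 160 * δ ^ 3 ≤ 2 * α * w ^ 3 + β * δ * w ^ 2 - 2 * L * e - (1 - p) * w * e := by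
    have e1 : 2 * α * w ^ 3 + β * δ * w ^ 2 - 2 * L * e - (1 - p) * w * e =
        α * (1 - p) * w ^ 3 + (2 * s * α - p * β) * (w ^ 2 * δ) +
          (2 * s * β - (1 + p) * γ) * (w * δ ^ 2) + 2 * s * γ * δ ^ 3 := by
      rw [hL, he]
      ring
    rw [e1]
    have c1 := mul_le_mul_of_nonneg_right G1 (show 0 ≤ w ^ 3 by positivity)
    have c4 := mul_le_mul_of_nonneg_right G4 (show 0 ≤ δ ^ 3 by positivity)
    have c2 : 0 ≤ (2 * s * α - p * β) * (w ^ 2 * δ) := mul_nonneg G2 (by positivity)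
    have c3 : 0 ≤ (2 * s * β - (1 + p) * γ) * (w * δ ^ 2) := mul_nonneg G3 (by positivity)
    linarith
  have hcub : t ^ 3 ≤ 4 * (w ^ 3 + δ ^ 3) := by
    have : 4 * (w ^ 3 + δ ^ 3) - t ^ 3 = 3 * (w + δ) * (w - δ) ^ 2 := by
      rw [ht]
      ring
    have h0 : 0 ≤ 3 * (w + δ) * (w - δ) ^ 2 := by positivity
    linarith
  have hord : s ^ 2 * δ ^ 2 + p * w ^ 2 - L ^ 2 - (1 - p) * w * δ - (1 - p) * w * L = 0 := by
    rw [hL]
    linear_combination w * δ * hps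
  have hfin : (1 + δ) ^ 2 - (1 + δ) * (1 - ρ + ρ ^ 2 + 16 * t ^ 3) -
      (1 + (1 - p) * w) * ((1 + δ) * (1 + ρ') - 1) - δ ^ 2 * (1 - s ^ 2) =
      s ^ 2 * δ ^ 2 + (1 + δ) * (ρ - ρ') - ρ ^ 2 - δ * ρ ^ 2 - (1 + δ) * (16 * t ^ 3) -
        (1 - p) * w * δ - (1 - p) * w * (1 + δ) * ρ' := by ring
  have hρ2e : ρ ^ 2 = L ^ 2 + 2 * L * e + e ^ 2 := by rw [hρ]; ring
  have hsplit : (1 - p) * w * (1 + δ) * ρ = (1 - p) * w * L + (1 - p) * w * e +
      (1 - p) * w * δ * ρ := by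
    rw [hρ]
    ring
  have hDe : D = p * w ^ 2 - p * w ^ 3 + 2 * α * w ^ 3 - 3 * α * w ^ 4 + β * δ * w ^ 2 -
      β * δ * w ^ 3 := by
    rw [hD]
    ring
  linarith

private lemma core4 {s p α β γ S w δ : ℝ} (hs0 : 0 < s) (hs1 : s < 1) (hp0 : 0 < p)
    (hp1 : p < 1) (hα : 0 ≤ α) (hβ : 0 ≤ β) (hγ : 8 ≤ γ)
    (hS : S = α + β + γ) (hw : 0 < w) (hδ : 0 < δ) (hδ2 : δ ≤ 1 / 2) (hSd : S * δ ≤ s / 2)
    (hwd : 2 * w ≤ s * δ) :
    δ ^ 2 * (1 - s ^ 2) + s * p * δ * w ≤ (1 + δ) ^ 2 -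
      (1 + δ) / (1 + (p * w - s * δ + (α * w ^ 2 + β * δ * w + γ * δ ^ 2))) -
        ((1 + δ) * (1 + (p * w - s * δ + (α * w ^ 2 + β * δ * w + γ * δ ^ 2))) - 1) := by
  set e : ℝ := α * w ^ 2 + β * δ * w + γ * δ ^ 2 with he
  set A : ℝ := s * δ - p * w with hA
  have hsd : s * δ ≤ δ := by nlinarith
  have hsd0 : 0 < s * δ := by positivity
  have hpw : p * w ≤ w := by nlinarith
  have hpw0 : 0 < p * w := by positivity
  have hwδ : w ≤ δ := by linarith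
  have hA1 : s * δ / 2 ≤ A := by rw [hA]; linarith
  have hA2 : A ≤ s * δ := by rw [hA]; linarith
  have hA0 : 0 < A := by linarith
  have heA : e ≤ A := by
    have b1 : α * w ^ 2 ≤ α * δ ^ 2 := by gcongr
    have b2 : β * δ * w ≤ β * δ * δ := by gcongr
    calc e ≤ S * δ * δ := by rw [he, hS]; nlinarith
      _ ≤ s / 2 * δ := by gcongr
      _ = s * δ / 2 := by ring
      _ ≤ A := hA1
  have heγ : γ * δ ^ 2 ≤ e := by
    have : 0 ≤ α * w ^ 2 + β * δ * w := by positivity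
    rw [he]
    linarith
  have he0 : 0 ≤ e := le_trans (by positivity) heγ
  have hρ : p * w - s * δ + e = -(A - e) := by rw [hA]; ring
  rw [hρ]
  set B : ℝ := A - e with hB
  have hB0 : 0 ≤ B := by rw [hB]; linarith
  have hBA : B ≤ A := by rw [hB]; linarith
  have h1B : 0 < 1 + -B := by linarith
  have hB2 : B ^ 2 ≤ A ^ 2 - s * γ * δ ^ 3 / 2 := by
    have c1 : B ^ 2 ≤ A * B := by
      rw [sq]
      exact mul_le_mul_of_nonneg_right hBA hB0
    have c2 : A * B = A ^ 2 - A * e := by rw [hB]; ring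
    have c3 : s * δ / 2 * (γ * δ ^ 2) ≤ A * e := mul_le_mul hA1 heγ (by positivity) hA0.le
    have c4 : s * δ / 2 * (γ * δ ^ 2) = s * γ * δ ^ 3 / 2 := by ring
    linarith
  have hA3 : A ^ 2 ≤ s ^ 2 * δ ^ 2 - s * p * w * δ := by
    have c1 : p * w * (p * w) ≤ p * w * (s * δ) :=
      mul_le_mul_of_nonneg_left (by linarith) hpw0.le
    have c2 : A ^ 2 = s ^ 2 * δ ^ 2 - 2 * (p * w * (s * δ)) + p * w * (p * w) := by rw [hA]; ring
    rw [c2]
    linarith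
  have hBs : B ^ 2 ≤ s ^ 2 * δ ^ 2 := by
    calc B ^ 2 ≤ (s * δ) ^ 2 := by
          apply pow_le_pow_left₀ hB0
          linarith
      _ = _ := by ring
  have hdiv : (1 + δ) / (1 + -B) ≤ (1 + δ) * (1 + B) + (1 + 4 * δ) * B ^ 2 := by
    rw [div_le_iff₀ h1B]
    have c1 : ((1 + δ) * (1 + B) + (1 + 4 * δ) * B ^ 2) * (1 + -B) =
        (1 + δ) + B ^ 2 * ((1 + 4 * δ) * (1 - B) - (1 + δ)) := by ring
    rw [c1]
    have c2 : 0 ≤ (1 + 4 * δ) * (1 - B) - (1 + δ) := by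
      have c3 : B ≤ δ := by linarith
      have c4 : (1 + 4 * δ) * (1 - δ) ≤ (1 + 4 * δ) * (1 - B) :=
        mul_le_mul_of_nonneg_left (by linarith) (by linarith)
      nlinarith
    have c5 : 0 ≤ B ^ 2 * ((1 + 4 * δ) * (1 - B) - (1 + δ)) := mul_nonneg (sq_nonneg _) c2
    linarith
  have h4 : 4 * δ * B ^ 2 ≤ s * γ * δ ^ 3 / 2 := by
    have c1 : 4 * δ * B ^ 2 ≤ 4 * δ * (s ^ 2 * δ ^ 2) :=
      mul_le_mul_of_nonneg_left hBs (by positivity)
    have c2 : 4 * δ * (s ^ 2 * δ ^ 2) = (s * δ ^ 3) * (4 * s) := by ring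
    have c3 : s * γ * δ ^ 3 / 2 = (s * δ ^ 3) * (γ / 2) := by ring
    have c4 : (s * δ ^ 3) * (4 * s) ≤ (s * δ ^ 3) * (γ / 2) :=
      mul_le_mul_of_nonneg_left (by linarith) (by positivity)
    linarith
  have h5 : (1 + δ) ^ 2 - ((1 + δ) * (1 + B) + (1 + 4 * δ) * B ^ 2) - ((1 + δ) * (1 + -B) - 1) =
      δ ^ 2 - B ^ 2 - 4 * δ * B ^ 2 := by ring
  have h6 : δ ^ 2 * (1 - s ^ 2) = δ ^ 2 - s ^ 2 * δ ^ 2 := by ring
  have h7 : s * p * δ * w = s * p * w * δ := by ring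
  linarith

/-- POC. -/
theorem hPOC : StPOC := by
  intro c hc
  have hs0 : 0 < ss c := by
    unfold ss
    apply Real.sqrt_pos.2
    have : 1 / c ^ 2 < 1 := by
      rw [div_lt_one (by positivity)]
      nlinarith
    linarith
  have hssq : ss c ^ 2 = 1 - 1 / c ^ 2 := by
    unfold ss
    apply Real.sq_sqrt
    have : 1 / c ^ 2 < 1 := by
      rw [div_lt_one (by positivity)]
      nlinarith
    linarith
  have hs1 : ss c < 1 := by
    have : 0 < 1 / c ^ 2 := by positivity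
    nlinarith
  have hpe : pp c = (1 - ss c) / (1 + ss c) := rfl
  set s : ℝ := ss c with hs
  set p : ℝ := pp c with hp
  have hps : p * (1 + s) = 1 - s := by
    rw [hpe]
    field_simp
  have hp0 : 0 < p := by
    rw [hpe]
    apply div_pos <;> linarith
  have hp1 : p < 1 := by
    rw [hpe, div_lt_one (by linarith)]
    linarith
  have hp10 : 0 < 1 - p := by linarith
  set γ : ℝ := 80 / s with hγ
  set β : ℝ := (1 + p) * γ / (2 * s) with hβ
  set α : ℝ := 160 / (1 - p) + p * β / (2 * s) with hα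
  have hγ0 : 0 < γ := by positivity
  have hβ0 : 0 < β := by positivity
  have hα0 : 0 < α := by positivity
  have hγ80 : 80 ≤ γ := by
    rw [hγ, le_div_iff₀ hs0]
    linarith
  set S : ℝ := α + β + γ with hS
  have hSγ : γ ≤ S := by rw [hS]; linarith
  have hS0 : 0 < S := by linarith
  set T : ℝ := 3 * S + S ^ 2 + 4 with hT
  have hT0 : 0 < T := by positivity
  have hT4 : 4 ≤ T := by
    have : 0 ≤ 3 * S + S ^ 2 := by positivity
    linarith
  have G1 : 160 ≤ α * (1 - p) := by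
    have e1 : α * (1 - p) = 160 + p * β / (2 * s) * (1 - p) := by
      rw [hα]
      field_simp
    have : 0 ≤ p * β / (2 * s) * (1 - p) := by positivity
    linarith
  have G2 : 0 ≤ 2 * s * α - p * β := by
    have e1 : 2 * s * α - p * β = 2 * s * (160 / (1 - p)) := by
      rw [hα]
      field_simp
      ring
    rw [e1]
    positivity
  have G3 : 0 ≤ 2 * s * β - (1 + p) * γ := by
    have e1 : 2 * s * β = (1 + p) * γ := by
      rw [hβ]
      field_simp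
    linarith
  have G4 : 160 ≤ 2 * s * γ := by
    have e1 : 2 * s * γ = 160 := by
      rw [hγ]
      field_simp
      ring
    linarith
  have hSs : S / s ≤ S ^ 2 := by
    have h1 : 1 / s ≤ S := by
      have : 1 / s ≤ γ := by
        rw [hγ]
        gcongr
        norm_num
      linarith
    calc S / s = S * (1 / s) := by ring
      _ ≤ S * S := by gcongr
      _ = S ^ 2 := by ring
  refine ⟨α, β, γ, 1 / (2 * T), ⌈2 * T⌉₊ + 2, hα0.le, hβ0.le, hγ0.le, by positivity, ?_, by omega, ?_⟩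
  · rw [div_le_one (by positivity)]
    linarith
  intro x δ hx hδ hδ1
  have hxT : 2 * T ≤ x := by
    have h1 := Nat.le_ceil (2 * T)
    push_cast at hx
    linarith
  have hx0 : 0 < x := by linarith
  have hδT : δ * (2 * T) ≤ 1 := by
    rw [le_div_iff₀ (by positivity)] at hδ1
    exact hδ1
  set w : ℝ := 1 / x with hw
  have hw0 : 0 < w := by positivity
  have hwT : w * (2 * T) ≤ 1 := by
    rw [hw, div_mul_eq_mul_div, one_mul, div_le_one hx0]
    exact hxT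
  have htT : (w + δ) * T ≤ 1 := by linarith
  have hδ2 : δ ≤ 1 / 2 := by nlinarith
  have er : rr s p α β γ δ x = 1 + (p * w - s * δ + (α * w ^ 2 + β * δ * w + γ * δ ^ 2)) := by
    unfold rr
    rw [hw]
    ring
  have er' : rr s p α β γ δ (x + 1) = 1 + (p * (1 / (x + 1)) - s * δ +
      (α * (1 / (x + 1)) ^ 2 + β * δ * (1 / (x + 1)) + γ * δ ^ 2)) := by
    unfold rr
    rw [one_div, inv_pow]
    ring
  have h2 : 1 + (1 - s) * δ ≤ (1 + δ) * rr s p α β γ δ x := by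
    rw [er]
    have a1 : 0 ≤ p * w + α * w ^ 2 + β * δ * w := by positivity
    have a2 : (1 + δ) * (1 + (p * w - s * δ + (α * w ^ 2 + β * δ * w + γ * δ ^ 2))) =
        1 + (1 - s) * δ + (γ - s) * δ ^ 2 + γ * δ ^ 3 +
          (1 + δ) * (p * w + α * w ^ 2 + β * δ * w) := by ring
    rw [a2]
    have a3 : 0 ≤ (γ - s) * δ ^ 2 := mul_nonneg (by linarith) (by positivity)
    have a4 : 0 ≤ γ * δ ^ 3 := by positivity
    have a5 : 0 ≤ (1 + δ) * (p * w + α * w ^ 2 + β * δ * w) := by positivity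
    linarith
  have h1 : 0 < rr s p α β γ δ x := by
    have a1 : 0 < (1 + δ) * rr s p α β γ δ x := by
      have : 0 < 1 + (1 - s) * δ := by
        have : 0 < (1 - s) * δ := mul_pos (by linarith) hδ
        linarith
      linarith
    exact (mul_pos_iff_of_pos_left (show 0 < 1 + δ by linarith)).1 a1
  have hc2 : δ ^ 2 / c ^ 2 = δ ^ 2 * (1 - s ^ 2) := by
    rw [hssq]
    ring
  refine ⟨h1, h2, ?_, ?_⟩
  · rw [hc2, er, er']
    have h3 := core3 (w' := 1 / (x + 1)) (t := w + δ) hs0 hs1 hp0 hp1 hps hα0.le hβ0.le hγ0.le hS hw0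
      hδ rfl htT (by rw [hw]; field_simp) G1 G2 G3 G4
    have e3 : (1 - p) / x = (1 - p) * w := by rw [hw]; ring
    rw [e3]
    exact h3
  · intro h4
    rw [hc2, er]
    have e4 : s * p * δ / x = s * p * δ * w := by rw [hw]; ring
    rw [e4]
    apply core4 hs0 hs1 hp0 hp1 hα0.le hβ0.le (by linarith) hS hw0 hδ hδ2
    · -- S δ ≤ s / 2
      have h5 : S ^ 2 * (2 * δ) ≤ 1 := by
        have : 0 ≤ 3 * S + 4 := by linarith
        nlinarith
      have h6 : S / s * (2 * δ) ≤ 1 := by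
        calc S / s * (2 * δ) ≤ S ^ 2 * (2 * δ) := by gcongr
          _ ≤ 1 := h5
      have h7 : S / s * (2 * δ) = (S * δ) * 2 / s := by ring
      rw [h7, div_le_one hs0] at h6
      linarith
    · -- 2 w ≤ s δ
      have h5 : 2 / (s * x) = 2 * w / s := by
        rw [hw]
        field_simp
      rw [h5, div_le_iff₀ hs0] at h4
      linarith

end Pool.Agent.Helper51.KE
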